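import Mathlib

/-!
# The mean-split algorithm: definitions and the behaviour of the right-most branch
-/

set_option autoImplicit false

open MeasureTheory ProbabilityTheory Set Filter
open scoped ENNReal

namespace Pool.Agent.R972.MS

/-- The mean-split algorithm: `T 0 μ` is the Dirac mass at the mean of `μ`, and `T (n+1) μ` is
`p₋ T n μ₋ + p₊ T n μ₊`, where `μ₋`, `μ₊` are `μ` conditioned on `(-∞, mean)`, `[mean, ∞)`. -/
noncomputable def T : ℕ → Measure ℝ → Measure ℝ
  | 0, μ => Measure.dirac (∫ x, x ∂μ)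
  | n + 1, μ => μ (Iio (∫ x, x ∂μ)) • T n (μ[|Iio (∫ x, x ∂μ)]) +
      μ (Ici (∫ x, x ∂μ)) • T n (μ[|Ici (∫ x, x ∂μ)])

/-- The Wasserstein-1 distance on the line, `∫ |F_μ(t) - F_ν(t)| dt`. -/
noncomputable def W1 (μ ν : Measure ℝ) : ℝ≥0∞ :=
  ∫⁻ t, ENNReal.ofReal |μ.real (Iic t) - ν.real (Iic t)|

lemma T_zero (μ : Measure ℝ) : T 0 μ = Measure.dirac (∫ x, x ∂μ) := rfl

lemma T_succ (n : ℕ) (μ : Measure ℝ) : T (n + 1) μ = μ (Iio (∫ x, x ∂μ)) • T n (μ[|Iio (∫ x, x ∂μ)]) +
      μ (Ici (∫ x, x ∂μ)) • T n (μ[|Ici (∫ x, x ∂μ)]) := rfl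

lemma T_prob : ∀ (n : ℕ) (μ : Measure ℝ), IsProbabilityMeasure μ → IsProbabilityMeasure (T n μ)
  | 0, μ, _ => by rw [T_zero]; infer_instance
  | n + 1, μ, hμ => by
    rw [T_succ]
    set m := ∫ x, x ∂μ
    have key : ∀ s : Set ℝ, (μ s • T n (μ[|s])) univ = μ s := by
      intro s
      by_cases h : μ s = 0
      · rw [h]; simp
      · have := cond_isProbabilityMeasure h
        have := T_prob n _ this
        simp
    constructor
    rw [Measure.add_apply, key, key, ← measure_union (by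
      rw [Set.disjoint_iff]; rintro x ⟨h1, h2⟩; exact (not_le.2 (mem_Iio.1 h1) (mem_Ici.1 h2)).elim) measurableSet_Ici,
      Iio_union_Ici, measure_univ]

lemma integrable_cond {μ : Measure ℝ} {s : Set ℝ} (hs : μ s ≠ 0)
    (hi : Integrable (fun x : ℝ => x) μ) : Integrable (fun x : ℝ => x) (μ[|s]) := by
  rw [ProbabilityTheory.cond]
  exact hi.restrict.smul_measure (ENNReal.inv_ne_top.2 hs)

/-- atoms do not leave the convex hull of the support, on the right -/
lemma T_Ioi (c : ℝ) : ∀ (n : ℕ) (μ : Measure ℝ), IsProbabilityMeasure μ →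
    Integrable (fun x : ℝ => x) μ → μ (Ioi c) = 0 → T n μ (Ioi c) = 0
  | 0, μ, hμ, hi, h0 => by
    rw [T_zero]
    have h1 : ∫ x, x ∂μ ≤ c := by
      have : ∫ x, x ∂μ ≤ ∫ _, c ∂μ := by
        refine integral_mono_ae hi (integrable_const c) ?_
        have : ∀ᵐ x ∂μ, x ∉ Ioi c := measure_eq_zero_iff_ae_notMem.1 h0
        filter_upwards [this] with x hx
        simpa using hx
      simpa using this
    rw [Measure.dirac_apply' _ measurableSet_Ioi, indicator_of_notMem]
    simpa using h1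
  | n + 1, μ, hμ, hi, h0 => by
    rw [T_succ]
    set m := ∫ x, x ∂μ
    have key : ∀ s : Set ℝ, (μ s • T n (μ[|s])) (Ioi c) = 0 := by
      intro s
      by_cases h : μ s = 0
      · rw [h]; simp
      · have h1 := cond_isProbabilityMeasure h
        have h2 := T_Ioi c n _ h1 (integrable_cond h hi) (cond_absolutelyContinuous h0)
        simp [h2]
    rw [Measure.add_apply, key, key, add_zero]

/-- the right-most branch -/
lemma T_right {ν : ℕ → Measure ℝ} {x : ℕ → ℝ} (hx : Monotone x)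
    (hp : ∀ k, IsProbabilityMeasure (ν k)) (hi : ∀ k, Integrable (fun x : ℝ => x) (ν k))
    (hm : ∀ k, ∫ y, y ∂(ν k) = x k) (hν : ∀ k, (ν k)[|Ici (x k)] = ν (k + 1)) :
    ∀ n k, T n (ν k) (Ioi (x (k + n))) = 0
  | 0, k => by
    rw [T_zero, hm, Measure.dirac_apply' _ measurableSet_Ioi, indicator_of_notMem]
    simp
  | n + 1, k => by
    rw [T_succ, hm, Measure.add_apply, hν]
    have h1 : ν (k + 1) = ν (k + 1) := rfl
    have h2 := T_right hx hp hi hm hν n (k + 1)
    rw [show k + 1 + n = k + (n + 1) by ring] at h2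
    have h3 : (ν k (Iio (x k)) • T n ((ν k)[|Iio (x k)])) (Ioi (x (k + (n + 1)))) = 0 := by
      by_cases h : ν k (Iio (x k)) = 0
      · rw [h]; simp
      · have h4 := cond_isProbabilityMeasure h
        have h5 : (ν k)[|Iio (x k)] (Ioi (x k)) = 0 := by
          rw [cond_apply measurableSet_Iio]
          have : Iio (x k) ∩ Ioi (x k) = ∅ := by
            ext y; simp; intro h; exact h.le
          rw [this]; simp
        have h6 := T_Ioi (x k) n _ h4 (integrable_cond h (hi k)) h5
        have h7 : T n ((ν k)[|Iio (x k)]) (Ioi (x (k + (n + 1)))) = 0 :=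
          measure_mono_null (Ioi_subset_Ioi (hx (by omega))) h6
        simp [h7]
    rw [h3, Measure.smul_apply, h2]
    simp

end Pool.Agent.R972.MS
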