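import Pool.Agent.R972.MS.Defs

/-!
# A law with lacunary tail for which the mean-split algorithm is slow
-/

set_option autoImplicit false

open MeasureTheory ProbabilityTheory Set Filter Topology
open scoped ENNReal

namespace Pool.Agent.R972.MS

/-- the uniform law on `[a, b)` -/
noncomputable def U (a b : ℝ) : Measure ℝ := ENNReal.ofReal (1 / (b - a)) • volume.restrict (Ico a b)

lemma U_prob {a b : ℝ} (h : a < b) : IsProbabilityMeasure (U a b) := by
  constructor
  have : 0 < b - a := by linarith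
  simp only [U, Measure.smul_apply, Measure.restrict_apply MeasurableSet.univ, univ_inter,
    Real.volume_Ico, smul_eq_mul]
  rw [← ENNReal.ofReal_mul (by positivity)]
  rw [one_div, inv_mul_cancel₀ this.ne']; simp

lemma U_ac (a b : ℝ) : U a b ≪ volume := by
  unfold U
  exact Measure.smul_absolutelyContinuous.trans Measure.restrict_le_self.absolutelyContinuous

lemma U_supp (a b : ℝ) : U a b (Ico a b)ᶜ = 0 := by
  simp [U, Measure.restrict_apply measurableSet_Ico.compl]

lemma U_null {a b : ℝ} {s : Set ℝ} (h : ∀ z ∈ s, z ∈ Ico a b → False) : U a b s = 0 :=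
  measure_mono_null (t := (Ico a b)ᶜ) (fun z hz hz2 => h z hz hz2) (U_supp a b)

lemma U_int {a b : ℝ} {f : ℝ → ℝ} (hf : Continuous f) : Integrable f (U a b) := by
  unfold U
  refine Integrable.smul_measure ?_ ENNReal.ofReal_ne_top
  exact (hf.integrableOn_Icc (a := a) (b := b)).mono_set Ico_subset_Icc_self

lemma U_mean {a b : ℝ} (h : a < b) : ∫ x, x ∂(U a b) = (a + b) / 2 := by
  have h0 : 0 < b - a := by linarith
  rw [U, integral_smul_measure, integral_Ico_eq_integral_Ioo, ← integral_Ioc_eq_integral_Ioo,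
    ← intervalIntegral.integral_of_le h.le, integral_id, ENNReal.toReal_ofReal (by positivity),
    smul_eq_mul]
  field_simp; ring

/-- parameters of the example -/
structure Par where
  /-- the ratio of the tail probabilities -/
  r : ℝ
  /-- the ratio of the stop-loss transform -/
  ρ : ℝ
  /-- the width parameter -/
  θ : ℝ
  r0 : 0 < r
  rρ : r < ρ
  ρ1 : ρ < 1
  θ0 : 0 < θ
  θ1 : θ ≤ 1
  eq : ρ = (1 - r) * (1 - θ / 2)
  sq : ρ ^ 2 < r

namespace Par

variable (P : Par)

/-- the ratio of the gaps -/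
noncomputable def R : ℝ := P.ρ / P.r

lemma R1 : 1 < P.R := by
  rw [R, one_lt_div P.r0]; exact P.rρ

lemma Rpos : 0 < P.R := lt_trans one_pos P.R1

lemma r1 : P.r < 1 := P.rρ.trans P.ρ1

/-- the split points -/
noncomputable def x (k : ℕ) : ℝ := (P.R ^ k - 1) / (P.R - 1)

lemma x_zero : P.x 0 = 0 := by simp [x]

lemma x_succ (k : ℕ) : P.x (k + 1) = P.x k + P.R ^ k := by
  have : P.R - 1 ≠ 0 := by have := P.R1; linarith
  simp only [x]; field_simp; ring

lemma x_mono : Monotone P.x := by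
  apply monotone_nat_of_le_succ
  intro k
  rw [x_succ]
  have := pow_pos P.Rpos k
  linarith

lemma x_nonneg (k : ℕ) : 0 ≤ P.x k := by
  have := P.x_mono (Nat.zero_le k)
  rwa [x_zero] at this

lemma x_le (k : ℕ) : P.x k ≤ P.R ^ k / (P.R - 1) := by
  have : 0 < P.R - 1 := by have := P.R1; linarith
  rw [x]
  gcongr
  linarith

/-- end point of the `k`-th interval -/
noncomputable def y (k : ℕ) : ℝ := P.x k + P.θ * P.R ^ k

lemma xy (k : ℕ) : P.x k < P.y k := by
  have := mul_pos P.θ0 (pow_pos P.Rpos k)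
  rw [y]; linarith

lemma yx (k : ℕ) : P.y k ≤ P.x (k + 1) := by
  rw [y, x_succ]
  have := mul_le_mul_of_nonneg_right P.θ1 (pow_pos P.Rpos k).le
  linarith

/-- weights -/
noncomputable def w (k : ℕ) : ℝ := (1 - P.r) * P.r ^ k

lemma w_nonneg (k : ℕ) : 0 ≤ P.w k := mul_nonneg (by have := P.r1; linarith) (pow_nonneg P.r0.le k)

/-- the tail measures -/
noncomputable def Q (k : ℕ) : Measure ℝ :=
  Measure.sum fun j => ENNReal.ofReal (P.w (k + j)) • U (P.x (k + j)) (P.y (k + j))

lemma Q_succ (k : ℕ) : P.Q k = ENNReal.ofReal (P.w k) • U (P.x k) (P.y k) + P.Q (k + 1) := by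
  ext s hs
  rw [Q, Q, Measure.add_apply, Measure.sum_apply _ hs, Measure.sum_apply _ hs,
    tsum_eq_zero_add' ENNReal.summable]
  simp only [add_zero]
  congr 1
  refine tsum_congr fun j => ?_
  rw [show k + (j + 1) = k + 1 + j by ring]

lemma hasSum_w (k : ℕ) : HasSum (fun j => P.w (k + j)) (P.r ^ k) := by
  have h1 : HasSum (fun j => P.r ^ j) (1 - P.r)⁻¹ := hasSum_geometric_of_lt_one P.r0.le P.r1
  have h2 := h1.mul_left ((1 - P.r) * P.r ^ k)
  have e : (1 - P.r) * P.r ^ k * (1 - P.r)⁻¹ = P.r ^ k := by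
    have : 1 - P.r ≠ 0 := by have := P.r1; linarith
    field_simp
  rw [e] at h2
  have e2 : (fun j => P.w (k + j)) = fun j => (1 - P.r) * P.r ^ k * P.r ^ j := by
    funext j
    simp only [w, pow_add]; ring
  rw [e2]; exact h2

lemma Q_univ (k : ℕ) : P.Q k univ = ENNReal.ofReal (P.r ^ k) := by
  rw [Q, Measure.sum_apply _ MeasurableSet.univ]
  have : ∀ j, (ENNReal.ofReal (P.w (k + j)) • U (P.x (k + j)) (P.y (k + j))) univ =
      ENNReal.ofReal (P.w (k + j)) := by
    intro j
    have := U_prob (P.xy (k + j))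
    simp
  simp_rw [this]
  rw [← ENNReal.ofReal_tsum_of_nonneg (fun j => P.w_nonneg _) (P.hasSum_w k).summable,
    (P.hasSum_w k).tsum_eq]

instance (k : ℕ) : IsFiniteMeasure (P.Q k) := ⟨by rw [Q_univ]; exact ENNReal.ofReal_lt_top⟩

lemma Q_Iio (k : ℕ) : P.Q k (Iio (P.x k)) = 0 := by
  rw [Q, Measure.sum_apply _ measurableSet_Iio, ENNReal.tsum_eq_zero]
  intro j
  rw [Measure.smul_apply]
  have : U (P.x (k + j)) (P.y (k + j)) (Iio (P.x k)) = 0 := by
    refine U_null fun z hz hz2 => ?_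
    have := P.x_mono (Nat.le_add_right k j)
    exact absurd (lt_of_lt_of_le hz this) (not_lt.2 hz2.1)
  simp [this]

lemma Q_ac (k : ℕ) : P.Q k ≪ volume := by
  rw [Q]
  refine Measure.absolutelyContinuous_sum_left fun j => ?_
  exact Measure.smul_absolutelyContinuous.trans (U_ac _ _)

lemma Q_restrict (k : ℕ) : (P.Q k).restrict (Ici (P.x (k + 1))) = P.Q (k + 1) := by
  rw [Q_succ, Measure.restrict_add, Measure.restrict_smul]
  have h1 : (U (P.x k) (P.y k)).restrict (Ici (P.x (k + 1))) = 0 := by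
    rw [Measure.restrict_eq_zero]
    refine U_null fun z hz hz2 => ?_
    have := P.yx k
    exact absurd (lt_of_lt_of_le hz2.2 this) (not_lt.2 hz)
  have h2 : (P.Q (k + 1)).restrict (Ici (P.x (k + 1))) = P.Q (k + 1) := by
    apply Measure.restrict_eq_self_of_ae_mem
    rw [ae_iff]
    have : {a | a ∉ Ici (P.x (k + 1))} = Iio (P.x (k + 1)) := by ext; simp
    rw [this]
    exact P.Q_Iio _
  rw [h1, h2]; simp

lemma Q_int2 (k : ℕ) : Integrable (fun x : ℝ => x ^ 2) (P.Q k) := by
  refine ⟨by fun_prop, ?_⟩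
  rw [HasFiniteIntegral, Q, lintegral_sum_measure]
  have hb : ∀ j, ∫⁻ z, ‖z ^ 2‖ₑ ∂(ENNReal.ofReal (P.w (k + j)) • U (P.x (k + j)) (P.y (k + j))) ≤
      ENNReal.ofReal (P.w (k + j) * P.x (k + j + 1) ^ 2) := by
    intro j
    have := U_prob (P.xy (k + j))
    rw [lintegral_smul_measure, ENNReal.ofReal_mul (P.w_nonneg _)]
    refine mul_le_mul_right ?_ _
    have h1 : ∫⁻ z, ‖z ^ 2‖ₑ ∂(U (P.x (k + j)) (P.y (k + j))) ≤
        ∫⁻ _, ENNReal.ofReal (P.x (k + j + 1) ^ 2) ∂(U (P.x (k + j)) (P.y (k + j))) := by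
      refine lintegral_mono_ae ?_
      have h2 : ∀ᵐ z ∂(U (P.x (k + j)) (P.y (k + j))), z ∈ Ico (P.x (k + j)) (P.y (k + j)) := by
        rw [ae_iff]; exact U_supp _ _
      filter_upwards [h2] with z hz
      rw [Real.enorm_eq_ofReal (sq_nonneg _)]
      apply ENNReal.ofReal_le_ofReal
      have h3 := P.x_nonneg (k + j)
      have h4 := P.yx (k + j)
      have h5 := hz.1
      have h6 := hz.2
      nlinarith
    simpa using h1
  refine lt_of_le_of_lt (ENNReal.tsum_le_tsum hb) ?_
  have hs : Summable fun j => P.w (k + j) * P.x (k + j + 1) ^ 2 := by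
    have hR := P.R1
    have h0 : 0 ≤ P.ρ ^ 2 / P.r := by have := P.r0; positivity
    have h1 : P.ρ ^ 2 / P.r < 1 := by rw [div_lt_one P.r0]; exact P.sq
    have hg := (summable_geometric_of_lt_one h0 h1).mul_left
      (1 * P.R ^ 2 / (P.R - 1) ^ 2 * (P.ρ ^ 2 / P.r) ^ k)
    refine Summable.of_nonneg_of_le (fun j => mul_nonneg (P.w_nonneg _) (sq_nonneg _)) (fun j => ?_) hg
    have hR' : 0 < P.R - 1 := by linarith
    have h2 : P.x (k + j + 1) ^ 2 ≤ (P.R ^ (k + j + 1) / (P.R - 1)) ^ 2 :=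
      pow_le_pow_left₀ (P.x_nonneg _) (P.x_le _) 2
    have h3 : P.w (k + j) ≤ 1 * P.r ^ (k + j) := by
      rw [w]
      apply mul_le_mul_of_nonneg_right _ (pow_nonneg P.r0.le _)
      have := P.r0; linarith
    have h4 : 0 ≤ P.r ^ (k + j) := pow_nonneg P.r0.le _
    calc P.w (k + j) * P.x (k + j + 1) ^ 2 ≤
        (1 * P.r ^ (k + j)) * (P.R ^ (k + j + 1) / (P.R - 1)) ^ 2 :=
          mul_le_mul h3 h2 (sq_nonneg _) (by positivity)
      _ = 1 * P.R ^ 2 / (P.R - 1) ^ 2 * (P.r * P.R ^ 2) ^ (k + j) := by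
          rw [mul_pow, ← pow_mul]
          field_simp
          ring
      _ = _ := by
          have : P.r * P.R ^ 2 = P.ρ ^ 2 / P.r := by
            rw [R]; have := P.r0.ne'; field_simp
          rw [this, pow_add]; ring
  rw [← ENNReal.ofReal_tsum_of_nonneg (fun j => mul_nonneg (P.w_nonneg _) (sq_nonneg _)) hs]
  exact ENNReal.ofReal_lt_top

lemma Q_int (k : ℕ) : Integrable (fun x : ℝ => x) (P.Q k) := by
  have h : MemLp (fun x : ℝ => x) 2 (P.Q k) :=
    (memLp_two_iff_integrable_sq (by fun_prop)).2 (P.Q_int2 k)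
  exact h.integrable (by norm_num)

lemma Q_mean (k : ℕ) : ∫ z, z ∂(P.Q k) = P.r ^ k * P.x (k + 1) := by
  have hi := P.Q_int k
  have hr := P.r0
  rw [Q] at hi ⊢
  have h1 := hasSum_integral_measure hi
  have h2 : ∀ j, ∫ z, z ∂(ENNReal.ofReal (P.w (k + j)) • U (P.x (k + j)) (P.y (k + j))) =
      P.r ^ (k + j) * P.x (k + j + 1) - P.r ^ (k + j + 1) * P.x (k + j + 1 + 1) := by
    intro j
    rw [integral_smul_measure, U_mean (P.xy _), ENNReal.toReal_ofReal (P.w_nonneg _), y, w,
      smul_eq_mul, x_succ P (k + j + 1), x_succ P (k + j), pow_succ P.R, pow_succ P.r]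
    have e : P.R = P.ρ / P.r := rfl
    have e2 : P.r * P.R = P.ρ := by rw [e]; field_simp
    set A := P.R ^ (k + j)
    set B := P.r ^ (k + j)
    have e3 : B * (P.x (k + j) + A) - B * P.r * (P.x (k + j) + A + A * P.R) =
        B * (P.x (k + j) + A) - B * P.r * (P.x (k + j) + A) - B * A * P.ρ := by
      rw [← e2]; ring
    rw [e3, P.eq]; ring
  simp_rw [h2] at h1
  have h3 : HasSum (fun j => P.r ^ (k + j) * P.x (k + j + 1) -
      P.r ^ (k + j + 1) * P.x (k + j + 1 + 1)) (P.r ^ k * P.x (k + 1)) := by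
    have h4 : Tendsto (fun n => ∑ j ∈ Finset.range n, (P.r ^ (k + j) * P.x (k + j + 1) -
        P.r ^ (k + j + 1) * P.x (k + j + 1 + 1))) atTop (𝓝 (P.r ^ k * P.x (k + 1))) := by
      have e : ∀ n, ∑ j ∈ Finset.range n, (P.r ^ (k + j) * P.x (k + j + 1) -
          P.r ^ (k + j + 1) * P.x (k + j + 1 + 1)) =
          P.r ^ k * P.x (k + 1) - P.r ^ (k + n) * P.x (k + n + 1) := by
        intro n
        induction n with
        | zero => simp
        | succ n ih => rw [Finset.sum_range_succ, ih, show k + (n + 1) = k + n + 1 by ring]; ring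
      simp_rw [e]
      have h5 : Tendsto (fun n => P.r ^ (k + n) * P.x (k + n + 1)) atTop (𝓝 0) := by
        have hR := P.R1
        have hR' : 0 < P.R - 1 := by linarith
        have hρ0 : 0 < P.ρ := P.r0.trans P.rρ
        have h6 : Tendsto (fun n : ℕ => P.ρ ^ n * (P.ρ ^ k * (P.R / (P.R - 1)))) atTop (𝓝 0) := by
          have := (tendsto_pow_atTop_nhds_zero_of_lt_one hρ0.le P.ρ1).mul_const
            (P.ρ ^ k * (P.R / (P.R - 1)))
          simpa using this
        refine squeeze_zero (fun n => mul_nonneg (pow_nonneg P.r0.le _) (P.x_nonneg _)) (fun n => ?_) h6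
        have h7 := P.x_le (k + n + 1)
        calc P.r ^ (k + n) * P.x (k + n + 1) ≤ P.r ^ (k + n) * (P.R ^ (k + n + 1) / (P.R - 1)) := by
              gcongr
          _ = (P.r * P.R) ^ (k + n) * (P.R / (P.R - 1)) := by
              rw [mul_pow, pow_succ]; ring
          _ = _ := by
              have : P.r * P.R = P.ρ := by rw [R]; field_simp
              rw [this, pow_add]; ring
      simpa using h5.const_sub (P.r ^ k * P.x (k + 1))
    have hs : Summable fun j => P.r ^ (k + j) * P.x (k + j + 1) -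
        P.r ^ (k + j + 1) * P.x (k + j + 1 + 1) := h1.summable
    have := hs.hasSum.tendsto_sum_nat
    have h5 := tendsto_nhds_unique this h4
    rw [← h5]
    exact hs.hasSum
  exact h1.unique h3

/-- the measure of the example -/
noncomputable def μ : Measure ℝ := ENNReal.ofReal (1 / 2) • U (-2) 0 + ENNReal.ofReal (1 / 2) • P.Q 0

instance : IsProbabilityMeasure P.μ := ⟨by
  have := U_prob (a := -2) (b := 0) (by norm_num)
  rw [μ, Measure.add_apply, Measure.smul_apply, Measure.smul_apply, Q_univ, measure_univ]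
  simp only [pow_zero, ENNReal.ofReal_one, smul_eq_mul, mul_one]
  rw [← ENNReal.ofReal_add (by norm_num) (by norm_num)]
  norm_num⟩

lemma μ_ac : P.μ ≪ volume := by
  rw [μ]
  exact Measure.AbsolutelyContinuous.add_left
    (Measure.smul_absolutelyContinuous.trans (U_ac _ _))
    (Measure.smul_absolutelyContinuous.trans (P.Q_ac _))

lemma μ_int2 : Integrable (fun x : ℝ => x ^ 2) P.μ := by
  rw [μ]
  exact ((U_int (by fun_prop)).smul_measure ENNReal.ofReal_ne_top).add_measure
    ((P.Q_int2 0).smul_measure ENNReal.ofReal_ne_top)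

lemma μ_memLp : MemLp (fun x : ℝ => x) 2 P.μ :=
  (memLp_two_iff_integrable_sq (by fun_prop)).2 P.μ_int2

lemma μ_int : Integrable (fun x : ℝ => x) P.μ := P.μ_memLp.integrable (by norm_num)

lemma μ_mean : ∫ z, z ∂P.μ = 0 := by
  rw [μ, integral_add_measure ((U_int (by fun_prop)).smul_measure ENNReal.ofReal_ne_top)
    ((P.Q_int 0).smul_measure ENNReal.ofReal_ne_top), integral_smul_measure, integral_smul_measure,
    U_mean (by norm_num), Q_mean, x_succ, x_zero, ENNReal.toReal_ofReal (by norm_num)]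
  norm_num

lemma μ_restrict (k : ℕ) : P.μ.restrict (Ici (P.x k)) = ENNReal.ofReal (1 / 2) • P.Q k := by
  induction k with
  | zero =>
    rw [μ, Measure.restrict_add, Measure.restrict_smul, Measure.restrict_smul, x_zero]
    have h1 : (U (-2) 0).restrict (Ici 0) = 0 := by
      rw [Measure.restrict_eq_zero]
      refine U_null fun z hz hz2 => ?_
      exact absurd hz2.2 (not_lt.2 hz)
    have h2 : (P.Q 0).restrict (Ici 0) = P.Q 0 := by
      apply Measure.restrict_eq_self_of_ae_mem
      rw [ae_iff]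
      have : {a : ℝ | a ∉ Ici (0:ℝ)} = Iio (P.x 0) := by ext; simp [x_zero]
      rw [this]
      exact P.Q_Iio _
    rw [h1, h2]; simp
  | succ k ih =>
    have h1 : Ici (P.x (k + 1)) ∩ Ici (P.x k) = Ici (P.x (k + 1)) := by
      rw [Ici_inter_Ici, sup_eq_left.2 (P.x_mono (Nat.le_succ k))]
    rw [← h1, ← Measure.restrict_restrict measurableSet_Ici, ih, Measure.restrict_smul, Q_restrict]

lemma μ_Ici (k : ℕ) : P.μ (Ici (P.x k)) = ENNReal.ofReal (P.r ^ k / 2) := by
  have h := congrArg (fun m => m univ) (P.μ_restrict k)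
  simp only [Measure.restrict_apply_univ, Measure.smul_apply, Q_univ, smul_eq_mul] at h
  rw [h, ← ENNReal.ofReal_mul (by norm_num)]
  congr 1; ring

lemma μ_Ici_ne (k : ℕ) : P.μ (Ici (P.x k)) ≠ 0 := by
  rw [μ_Ici]
  have := pow_pos P.r0 k
  simp; exact this

/-- the conditioned measures of the right-most branch -/
noncomputable def ν : ℕ → Measure ℝ
  | 0 => P.μ
  | k + 1 => P.μ[|Ici (P.x k)]

lemma ν_prob (k : ℕ) : IsProbabilityMeasure (P.ν k) := by
  cases k with
  | zero => exact inferInstanceAs (IsProbabilityMeasure P.μ)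
  | succ k => exact cond_isProbabilityMeasure (P.μ_Ici_ne k)

lemma ν_int (k : ℕ) : Integrable (fun x : ℝ => x) (P.ν k) := by
  cases k with
  | zero => exact P.μ_int
  | succ k => exact integrable_cond (P.μ_Ici_ne k) P.μ_int

lemma ν_mean (k : ℕ) : ∫ z, z ∂(P.ν k) = P.x k := by
  cases k with
  | zero => rw [x_zero]; exact P.μ_mean
  | succ k =>
    have := pow_pos P.r0 k
    rw [ν, ProbabilityTheory.cond, integral_smul_measure, μ_restrict, integral_smul_measure, Q_mean, μ_Ici,
      ENNReal.toReal_inv, ENNReal.toReal_ofReal (by positivity), ENNReal.toReal_ofReal (by norm_num)]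
    simp only [smul_eq_mul]
    field_simp

lemma ν_cond (k : ℕ) : (P.ν k)[|Ici (P.x k)] = P.ν (k + 1) := by
  cases k with
  | zero => rfl
  | succ k =>
    rw [ν, cond_cond_eq_cond_inter measurableSet_Ici measurableSet_Ici, Ici_inter_Ici,
      sup_eq_right.2 (P.x_mono (Nat.le_succ k)), ν]

/-- the right-most atom of `T n μ` is at `x n` -/
lemma T_top (n : ℕ) : T n P.μ (Ioi (P.x n)) = 0 := by
  have := T_right P.x_mono P.ν_prob P.ν_int P.ν_mean P.ν_cond n 0
  rwa [zero_add] at this

/-- the lower bound for the error -/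
theorem W1_ge (n : ℕ) : ENNReal.ofReal (P.r / 2 * P.ρ ^ n) ≤ W1 (T n P.μ) P.μ := by
  have hT := T_prob n P.μ inferInstance
  have h1 : ∀ t ∈ Ico (P.x n) (P.x (n + 1)), P.r ^ (n + 1) / 2 ≤
      |(T n P.μ).real (Iic t) - P.μ.real (Iic t)| := by
    intro t ht
    have h2 : (T n P.μ).real (Iic t) = 1 := by
      have h3 : (T n P.μ) (Iic t)ᶜ = 0 := by
        rw [compl_Iic]
        exact measure_mono_null (Ioi_subset_Ioi ht.1) (P.T_top n)
      have h4 := prob_compl_eq_zero_iff (μ := T n P.μ) (measurableSet_Iic (a := t))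
      rw [measureReal_def, h4.1 h3]; simp
    have h3 : P.μ.real (Iic t) ≤ 1 - P.r ^ (n + 1) / 2 := by
      have h4 : P.μ.real (Ici (P.x (n + 1))) = P.r ^ (n + 1) / 2 := by
        have := pow_pos P.r0 (n + 1)
        rw [measureReal_def, μ_Ici, ENNReal.toReal_ofReal (by positivity)]
      have h5 : P.μ.real (Iic t) + P.μ.real (Ici (P.x (n + 1))) ≤ 1 := by
        rw [← measureReal_union (by
          rw [Set.disjoint_iff]; rintro z ⟨h6, h7⟩
          exact absurd (lt_of_le_of_lt (mem_Iic.1 h6) ht.2) (not_lt.2 h7)) measurableSet_Ici]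
        exact measureReal_le_one
      linarith
    rw [h2]
    exact le_trans (by linarith) (le_abs_self _)
  calc ENNReal.ofReal (P.r / 2 * P.ρ ^ n) =
      ∫⁻ _ in Ico (P.x n) (P.x (n + 1)), ENNReal.ofReal (P.r ^ (n + 1) / 2) := by
        rw [setLIntegral_const, Real.volume_Ico, x_succ, ← ENNReal.ofReal_mul (by
          have := pow_pos P.r0 (n + 1); positivity)]
        congr 1
        have e : P.ρ = P.r * P.R := by rw [R]; have := P.r0; field_simp
        rw [e, mul_pow, pow_succ]; ring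
    _ ≤ ∫⁻ t in Ico (P.x n) (P.x (n + 1)),
        ENNReal.ofReal |(T n P.μ).real (Iic t) - P.μ.real (Iic t)| :=
        setLIntegral_mono' measurableSet_Ico fun t ht => ENNReal.ofReal_le_ofReal (h1 t ht)
    _ ≤ W1 (T n P.μ) P.μ := setLIntegral_le_lintegral _ _

end Par

end Pool.Agent.R972.MS
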